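import Mathlib

/-!
# MP_9df12e: every `S₁(Γ₁, Γ)`-space of reals is perfectly meager
-/

open Set Topology Filter

namespace Pool.Agent.Results.MP_9df12e_lc.PerfectlyMeager

/-- A `Γ_h`-sequence for `X`: open sets `V n m` such that for every `x` and `n` there are at most
`h n` indices `m` with `x ∉ V n m`. -/
def GammaSeq (h : ℕ → ℕ) {X : Type} [TopologicalSpace X] (V : ℕ → ℕ → Set X) : Prop :=
  (∀ n m, IsOpen (V n m)) ∧ ∀ x n, {m | x ∉ V n m}.encard ≤ h n

/-- `X` is an `S₁(Γ_h, Γ)`-space: from every `Γ_h`-sequence one can select one set in each row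
such that every point lies in all but finitely many selected sets. -/
def SOneGamma (h : ℕ → ℕ) (X : Type) [TopologicalSpace X] : Prop :=
  ∀ V : ℕ → ℕ → Set X, GammaSeq h V →
    ∃ d : ℕ → ℕ, ∀ x, {n | x ∉ V n (d n)}.Finite

/-- `X ⊆ ℝ` is perfectly meager: for every perfect set `P` (nonempty, closed, without isolated
points) the set `X ∩ P` is meager in the subspace `P`. -/
def IsPerfectlyMeager (X : Set ℝ) : Prop :=
  ∀ P : Set ℝ, P.Nonempty → Perfect P → IsMeagre ((Subtype.val : P → ℝ) ⁻¹' X)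

/-- Nonempty open subsets of a perfect set are infinite. -/
theorem infinite_of_open {P : Set ℝ} (hP : Perfect P) {U : Set P} (hU : IsOpen U)
    (hne : U.Nonempty) : U.Infinite := by
  intro hfin
  obtain ⟨x, hx⟩ := hne
  obtain ⟨V, hV, rfl⟩ := isOpen_induced_iff.mp hU
  have hacc := (accPt_iff_nhds.mp (hP.acc x x.2)) (V \ ((Subtype.val '' (Subtype.val ⁻¹' V : Set P)) \ {x.1}))
    (IsOpen.mem_nhds (hV.sdiff ((hfin.image _).subset sdiff_subset).isClosed)
      ⟨hx, fun h => h.2 rfl⟩)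
  obtain ⟨y, ⟨⟨hyV, hy⟩, hyP⟩, hyx⟩ := hacc
  exact hy ⟨⟨⟨y, hyP⟩, hyV, rfl⟩, hyx⟩

/-- In every nonempty open subset of a perfect set there is a sequence of pairwise disjoint closed
sets with nonempty interior. -/
theorem exists_disjoint_closed {P : Set ℝ} (hP : Perfect P) {U : Set P} (hU : IsOpen U)
    (hne : U.Nonempty) :
    ∃ F : ℕ → Set P, (∀ m, IsClosed (F m)) ∧ (∀ m, F m ⊆ U) ∧ (∀ m, (interior (F m)).Nonempty) ∧
      ∀ m m', m ≠ m' → Disjoint (F m) (F m') := by
  have : Infinite U := (infinite_of_open hP hU hne).to_subtype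
  obtain ⟨W, hWinf, hWo, hWd⟩ := exists_seq_infinite_isOpen_pairwise_disjoint U
  have hex : ∀ m, ∃ F : Set P, IsClosed F ∧ F ⊆ Subtype.val '' (W m) ∧ (interior F).Nonempty := by
    intro m
    have hopen : IsOpen (Subtype.val '' (W m) : Set P) := hU.isOpenMap_subtype_val _ (hWo m)
    obtain ⟨x, hx⟩ := (hWinf m).nonempty
    obtain ⟨t, ht, htc, hts⟩ := exists_mem_nhds_isClosed_subset
      (hopen.mem_nhds (mem_image_of_mem _ hx))
    exact ⟨t, htc, hts, ⟨x.1, mem_interior_iff_mem_nhds.mpr ht⟩⟩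
  choose F hFc hFs hFi using hex
  refine ⟨F, hFc, fun m => (hFs m).trans (by rintro _ ⟨y, _, rfl⟩; exact y.2), hFi, ?_⟩
  intro m m' hmm'
  refine (Disjoint.mono (hFs m) (hFs m') ?_)
  exact (disjoint_image_iff Subtype.val_injective).mpr (hWd hmm')

/-- **Main theorem** (positive answer to Q1): every `S₁(Γ₁, Γ)`-space of reals is perfectly
meager. -/
theorem result (X : Set ℝ) (hX : SOneGamma (fun _ => 1) X) : IsPerfectlyMeager X := by
  intro P hne hP
  obtain ⟨b, hbc, hbe, hb⟩ := TopologicalSpace.exists_countable_basis P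
  have hbne : b.Nonempty := by
    by_contra hcon
    rw [not_nonempty_iff_eq_empty] at hcon
    obtain ⟨x, hx⟩ := hne
    obtain ⟨v, hv, _⟩ := hb.exists_subset_of_mem_open (mem_univ (⟨x, hx⟩ : P)) isOpen_univ
    rw [hcon] at hv
    exact hv
  obtain ⟨B, rfl⟩ := hbc.exists_eq_range hbne
  have hBo : ∀ j, IsOpen (B j) := fun j => hb.isOpen ⟨j, rfl⟩
  have hBne : ∀ j, (B j).Nonempty := by
    intro j
    rw [nonempty_iff_ne_empty]
    intro h
    exact hbe ⟨j, h⟩
  choose F hFc hFs hFi hFd using fun j => exists_disjoint_closed hP (hBo j) (hBne j)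
  -- the rows
  let V : ℕ → ℕ → Set X := fun n m => {x | x.1 ∉ Subtype.val '' (F (Nat.unpair n).1 m)}
  have hV : GammaSeq (fun _ => 1) V := by
    constructor
    · intro n m
      have hcl : IsClosed (Subtype.val '' (F (Nat.unpair n).1 m) : Set ℝ) :=
        hP.closed.isClosedEmbedding_subtypeVal.isClosedMap _ (hFc _ m)
      exact (hcl.preimage continuous_subtype_val).isOpen_compl
    · intro x n
      simp only [Nat.cast_one]
      rw [encard_le_one_iff]
      intro m m' hm hm'
      by_contra hne'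
      simp only [V, mem_ofPred_eq, not_not] at hm hm'
      obtain ⟨y, hy, hyx⟩ := hm
      obtain ⟨y', hy', hyx'⟩ := hm'
      have : y = y' := Subtype.ext (hyx.trans hyx'.symm)
      subst this
      exact (disjoint_left.mp (hFd _ m m' hne')) hy hy'
  obtain ⟨d, hd⟩ := hX V hV
  -- the comeager set
  have hres : (⋂ N : ℕ, ⋃ n : {n // N ≤ n},
      interior (F (Nat.unpair n.1).1 (d n.1))) ∈ residual P := by
    rw [countable_iInter_mem]
    intro N
    refine residual_of_dense_open (isOpen_iUnion fun _ => isOpen_interior) ?_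
    rw [hb.dense_iff]
    rintro _ ⟨j, rfl⟩ _
    have hun : (Nat.unpair (Nat.pair j N)).1 = j := by rw [Nat.unpair_pair]
    obtain ⟨y, hy⟩ := hFi (Nat.unpair (Nat.pair j N)).1 (d (Nat.pair j N))
    refine ⟨y, ?_, ?_⟩
    · have := hFs _ _ (interior_subset hy)
      rwa [hun] at this
    · exact mem_iUnion.mpr ⟨⟨Nat.pair j N, Nat.right_le_pair j N⟩, hy⟩
  refine mem_of_superset hres ?_
  intro y hy hyX
  refine (hd ⟨y.1, hyX⟩).not_infinite ?_
  rw [← Nat.frequently_atTop_iff_infinite, frequently_atTop]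
  intro N
  obtain ⟨⟨n, hn⟩, hyn⟩ := mem_iUnion.mp (mem_iInter.mp hy N)
  exact ⟨n, hn, fun h => h ⟨y, interior_subset hyn, rfl⟩⟩

end Pool.Agent.Results.MP_9df12e_lc.PerfectlyMeager
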